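import Pool.Agent.H.MP_8dad47_al.A

set_option autoImplicit false

namespace Pool.Agent.HShift

open Finset Module

variable {α : Type} [LinearOrder α] [Fintype α] {K : Type} [Field K] {M A : Type}
  [AddCommGroup M] [Module K M] [AddCommGroup A] [Module K A]

/-- The differential of the Koszul complex of the operators `x i` on `M`. -/
def kz (x : α → M →ₗ[K] M) : (Finset α → M) →ₗ[K] Finset α → M :=
  LinearMap.pi fun G => ∑ l ∈ Gᶜ, sg K l G • x l ∘ₗ LinearMap.proj (insert l G)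

/-- The `j`-th term of the Koszul complex. -/
def Kj (K : Type) [Field K] (α M : Type) [AddCommGroup M] [Module K M] (j : ℕ) :
    Submodule K (Finset α → M) :=
  Submodule.pi {F | #F ≠ j} fun _ => ⊥

/-- The dimension of the `j`-th Koszul homology. -/
noncomputable def hz (x : α → M →ₗ[K] M) (j : ℕ) : ℕ :=
  finrank K ((Kj K α M j ⊓ LinearMap.ker (kz x) :) ⧸
    ((Kj K α M (j + 1)).map (kz x)).submoduleOf (Kj K α M j ⊓ LinearMap.ker (kz x)))

variable {x : α → M →ₗ[K] M} {j : ℕ} {c : Finset α → M} {v : α}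

lemma kz_apply (G : Finset α) : kz x c G = ∑ l ∈ Gᶜ, sg K l G • x l (c (insert l G)) := by
  simp [kz]

omit [LinearOrder α] [Fintype α] in
lemma mem_Kj : c ∈ Kj K α M j ↔ ∀ F, #F ≠ j → c F = 0 := by simp [Kj]

lemma Kj_kz (h : c ∈ Kj K α M (j + 1)) : kz x c ∈ Kj K α M j := mem_Kj.2 fun G hG => by
  rw [kz_apply]
  exact sum_eq_zero fun l hl => by
    rw [mem_Kj.1 h _ (by rw [card_insert_of_notMem (mem_compl.1 hl)]; omega), map_zero, smul_zero]

lemma kz_kz (hx : ∀ i l m, x i (x l m) = x l (x i m)) : kz x (kz x c) = 0 := by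
  ext G
  have h : kz x (kz x c) G = ∑ p ∈ Gᶜ ×ˢ Gᶜ with p.1 ≠ p.2,
      (sg K p.1 G * sg K p.2 (insert p.1 G)) • x p.1 (x p.2 (c (insert p.2 (insert p.1 G)))) := by
    rw [sum_filter, sum_product, kz_apply]
    refine sum_congr rfl fun j _ => ?_
    rw [kz_apply, ← sum_filter, compl_insert, filter_ne, map_sum, smul_sum]
    exact sum_congr rfl fun l _ => by rw [map_smul, smul_smul]
  rw [h]
  refine sum_involution (fun p _ => p.swap) (fun p hp => ?_) (fun p hp _ h => ?_)
    (fun p hp => ?_) fun _ _ => rfl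
  · simp only [mem_filter, mem_product, mem_compl] at hp
    have h1 := sg_swap (K := K) hp.2 hp.1.1 hp.1.2
    have h2 : sg K p.1 G * sg K p.2 (insert p.1 G) + sg K p.2 G * sg K p.1 (insert p.2 G) = 0 := by
      linear_combination sg K p.1 G * sg K p.1 (insert p.2 G) * h1 -
        sg K p.1 G * sg K p.2 (insert p.1 G) * sg_sq (K := K) p.1 (insert p.2 G) -
        sg K p.2 G * sg K p.1 (insert p.2 G) * sg_sq (K := K) p.1 G
    rw [Prod.fst_swap, Prod.snd_swap, insert_comm, hx p.2, ← add_smul, h2, zero_smul]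
  · exact (mem_filter.1 hp).2 (congrArg Prod.snd h)
  · simp only [mem_filter, mem_product] at hp ⊢
    exact ⟨hp.1.symm, hp.2.symm⟩

/-- Chains supported on the faces of size `j` avoiding `v`. -/
def Kv (K : Type) [Field K] (A : Type) [AddCommGroup A] [Module K A] (v : α) (j : ℕ) :
    Submodule K (Finset α → A) :=
  Submodule.pi {F | #F ≠ j ∨ v ∈ F} fun _ => ⊥

omit [Fintype α] in
lemma mem_Kv {c : Finset α → A} : c ∈ Kv K A v j ↔ ∀ F, #F ≠ j ∨ v ∈ F → c F = 0 := by simp [Kv]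

lemma hz_red [Module.Finite K A] {y : α → A →ₗ[K] A} (π : M →ₗ[K] A)
    (hx : ∀ i l m, x i (x l m) = x l (x i m)) (h1 : ∀ m, x v m = 0 → m = 0)
    (h2 : ∀ m, π m = 0 ↔ ∃ u, x v u = m) (h3 : Function.Surjective π)
    (h4 : ∀ i m, π (x i m) = y i (π m)) :
    hz x (j + 1) + finrank K ((Kv K A v (j + 1)).map (kz y)) +
      finrank K ((Kv K A v (j + 2)).map (kz y)) = finrank K (Kv K A v (j + 1)) := by
  let ρ : (Finset α → M) →ₗ[K] Finset α → A :=
    LinearMap.pi fun F => if v ∈ F then 0 else π ∘ₗ LinearMap.proj F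
  have e : ∀ c F, ρ c F = if v ∈ F then 0 else π (c F) := fun c F => by
    simp only [ρ, LinearMap.pi_apply]
    split_ifs <;> simp
  have e1 : ∀ c, ρ (kz x c) = kz y (ρ c) := fun c => funext fun G => by
    rw [e, kz_apply, kz_apply, map_sum]
    split_ifs with h
    · exact (sum_eq_zero fun l _ => by simp [e, h]).symm
    · refine sum_congr rfl fun l _ => ?_
      rw [map_smul, e]
      split_ifs with h'
      · rw [← (mem_insert.1 h').resolve_right h, (h2 _).2 ⟨_, rfl⟩, map_zero]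
      · rw [h4]
  have e2 : ∀ {j} c, c ∈ Kj K α M j → ρ c ∈ Kv K A v j := fun c hc => mem_Kv.2 fun F hF => by
    rw [e]
    split_ifs with h
    · rfl
    · rw [mem_Kj.1 hc F (hF.resolve_right h), map_zero]
  have e3 : ∀ {j} c', c' ∈ Kv K A v j → ∃ c ∈ Kj K α M j, ρ c = c' := fun {j} c' hc => by
    choose g hg using h3
    refine ⟨fun F => if #F = j then g (c' F) else 0, mem_Kj.2 fun F hF => if_neg hF,
      funext fun F => ?_⟩
    rw [e]
    split_ifs with h h'
    · exact (mem_Kv.1 hc F (.inr h)).symm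
    · exact hg _
    · rw [map_zero, mem_Kv.1 hc F (.inl h')]
  have e4 : ∀ {j} c, c ∈ Kj K α M j → kz x c = 0 → ρ c = 0 →
      ∃ u ∈ Kj K α M (j + 1), ρ u = 0 ∧ kz x u = c := fun {j} c hc h5 h6 => by
    have : ∀ F, ∃ u, v ∉ F → x v u = c F := fun F => by
      by_cases h : v ∈ F
      · exact ⟨0, fun h' => absurd h h'⟩
      · exact ((h2 _).1 (by simpa [e, h] using congrFun h6 F)).imp fun _ h _ => h
    choose g hg using this
    let u : Finset α → M := fun F => if v ∈ F then sg K v (F.erase v) • g (F.erase v) else 0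
    have e : ∀ u : Finset α → M, (∀ F, v ∉ F → u F = 0) → ∀ G, v ∉ G →
        kz x u G = sg K v G • x v (u (insert v G)) := fun u h G hG => by
      rw [kz_apply, sum_eq_single v (fun l _ hl => by
        rw [h _ (by simp [hG, hl.symm]), map_zero, smul_zero]) (by simp [hG])]
    have h7 : ∀ G, v ∉ G → (kz x u - c) G = 0 := fun G hG => by
      rw [Pi.sub_apply, e u (fun F h => if_neg h) G hG]
      simp only [u, if_pos (mem_insert_self v G), erase_insert hG]
      rw [map_smul, smul_smul, sg_sq, one_smul, hg G hG, sub_self]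
    refine ⟨u, mem_Kj.2 fun F hF => ite_eq_right_iff.2 fun h => ?_, funext fun F => ?_,
      sub_eq_zero.1 (funext fun F => ?_)⟩
    · rw [h1 (g _) ((hg _ (notMem_erase v F)).trans (mem_Kj.1 hc _ fun h' =>
        hF (h' ▸ (card_erase_add_one h).symm))), smul_zero]
    · by_cases h : v ∈ F <;> simp [*, u]
    · by_cases h : v ∈ F
      · have := e _ h7 _ (notMem_erase v F)
        rw [map_sub, kz_kz hx, h5, sub_zero, insert_erase h] at this
        exact h1 _ ((smul_eq_zero.1 this.symm).resolve_left (sg_ne _ _))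
      · exact h7 F h
  set Z := Kj K α M (j + 1) ⊓ LinearMap.ker (kz x)
  set B := (Kv K A v (j + 2)).map (kz y)
  have h5 : LinearMap.ker (B.mkQ ∘ₗ ρ ∘ₗ Z.subtype) =
      ((Kj K α M (j + 1 + 1)).map (kz x)).submoduleOf Z := by
    ext ⟨z, h5, h6⟩
    simp only [LinearMap.mem_ker, LinearMap.comp_apply, Submodule.mkQ_apply,
      Submodule.Quotient.mk_eq_zero, Submodule.subtype_apply, Submodule.submoduleOf,
      Submodule.mem_comap]
    refine ⟨fun ⟨w', h7, h8⟩ => ?_, fun ⟨w, h7, h8⟩ => ⟨ρ w, e2 w h7, by rw [← e1, h8]⟩⟩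
    obtain ⟨w, h9, rfl⟩ := e3 w' h7
    obtain ⟨u, h10, -, h11⟩ := e4 (z - kz x w) (sub_mem h5 (Kj_kz h9))
      (by rw [map_sub, kz_kz hx, h6, sub_zero]) (by rw [map_sub, e1, h8, sub_self])
    exact ⟨u + w, add_mem h10 h9, by rw [map_add, h11, sub_add_cancel]⟩
  have h6 : Z.map ρ = Kv K A v (j + 1) ⊓ LinearMap.ker (kz y) := by
    refine le_antisymm ?_ fun z' ⟨h6, h7⟩ => ?_
    · rintro _ ⟨z, ⟨h6, h7⟩, rfl⟩
      exact ⟨e2 z h6, (e1 z).symm.trans (by rw [h7, map_zero])⟩
    · obtain ⟨c, h8, rfl⟩ := e3 z' h6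
      obtain ⟨u, h9, h10, h11⟩ := e4 _ (Kj_kz h8) (kz_kz hx) ((e1 c).trans h7)
      exact ⟨c - u, ⟨sub_mem h8 h9, by simp [h11]⟩, by simp [h10]⟩
  have h7 : B ≤ Z.map ρ := by
    rintro _ ⟨w', h7, rfl⟩
    obtain ⟨w, h9, rfl⟩ := e3 w' h7
    exact ⟨_, ⟨Kj_kz h9, kz_kz hx⟩, e1 w⟩
  have h8 := (B.mkQ.domRestrict (Z.map ρ)).finrank_range_add_finrank_ker
  have h9 := ((kz y).domRestrict (Kv K A v (j + 1))).finrank_range_add_finrank_ker
  rw [LinearMap.range_domRestrict, LinearMap.ker_domRestrict, ← Submodule.finrank_map_subtype_eq,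
    Submodule.map_comap_subtype] at h8 h9
  rw [Submodule.ker_mkQ, inf_eq_right.2 h7] at h8
  rw [hz, ← h5, (LinearMap.quotKerEquivRange _).finrank_eq, LinearMap.range_comp,
    LinearMap.range_comp, Submodule.range_subtype, ← h9, ← h6, ← h8]
  ring

end Pool.Agent.HShift
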