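import Pool.Agent.H.MP_c132d1_al.A

set_option autoImplicit false

namespace Pool.Agent.HShift

open Finset Module

variable {α : Type} [LinearOrder α] [Fintype α] {K : Type} [Field K] {v p q : α} {j : ℕ}

lemma rank_sp {ι : Type} [Fintype ι] (T : Finset α → ι → Prop) [∀ F, DecidablePred (T F)]
    (P : Submodule K (Finset α → ι → K)) (h : ∀ c, c ∈ P ↔ ∀ F b, ¬ T F b → c F b = 0) :
    finrank K P = ∑ F, #{b | T F b} := by
  let f : P →ₗ[K] (Σ F, {b // T F b}) → K :=
    ⟨⟨fun c x => c.1 x.1 x.2.1, fun _ _ => rfl⟩, fun _ _ => rfl⟩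
  rw [(LinearEquiv.ofBijective f ⟨(injective_iff_map_eq_zero f).2 fun c hc =>
    Subtype.ext (funext₂ fun F b => by_contra fun h1 => h1 (congrFun hc
      ⟨F, b, by_contra fun h2 => h1 ((h c).1 c.2 F b h2)⟩)), fun g =>
    ⟨⟨fun F b => if h : T F b then g ⟨F, b, h⟩ else 0, (h _).2 fun F b h => dif_neg h⟩,
      funext fun x => dif_pos x.2.2⟩⟩).finrank_eq]
  simp [Fintype.card_subtype]

def yy (K : Type) [Field K] (v p q i : α) : (α ⊕ Bool → K) →ₗ[K] α ⊕ Bool → K :=
  LinearMap.pi fun
    | .inl l => if l = i ∧ i ≠ v then LinearMap.proj (.inl v) else 0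
    | .inr false => if i = p then LinearMap.proj (.inl p) else 0
    | .inr true => (if i = p then LinearMap.proj (.inl q) else 0) +
        if i = q then LinearMap.proj (.inl p) else 0

lemma cnt (s : Finset α) : ∑ F : Finset α, (if #F = j ∧ F ⊆ s then 1 else 0) = (#s).choose j := by
  rw [sum_boole, ← card_powersetCard]
  exact congrArg card (by ext; simp [and_comm])

lemma rank_yy (h1 : p ≠ v) (h2 : q ≠ v) (h3 : p ≠ q) :
    finrank K ((Kv K _ v (j + 1)).map (kz (yy K v p q))) +
      2 * (Fintype.card α - 2).choose (j + 1) = 3 * (Fintype.card α - 1).choose (j + 1) := by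
  have e1 : ∀ (c : Finset α → α ⊕ Bool → K) G l, kz (yy K v p q) c G (.inl l) =
      if l ∉ G ∧ l ≠ v then sg K l G * c (insert l G) (.inl v) else 0 := fun c G l => by
    simp [kz_apply, Finset.sum_apply, yy, DFunLike.ite_apply, ite_and]
  have e2 : ∀ (c : Finset α → α ⊕ Bool → K) G, kz (yy K v p q) c G (.inr false) =
      if p ∉ G then sg K p G * c (insert p G) (.inl p) else 0 := fun c G => by
    simp [kz_apply, Finset.sum_apply, yy, DFunLike.ite_apply]
  have e3 : ∀ (c : Finset α → α ⊕ Bool → K) G, kz (yy K v p q) c G (.inr true) =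
      (if p ∉ G then sg K p G * c (insert p G) (.inl q) else 0) +
        if q ∉ G then sg K q G * c (insert q G) (.inl p) else 0 := fun c G => by
    simp [kz_apply, Finset.sum_apply, yy, DFunLike.ite_apply, mul_add, sum_add_distrib]
  let T : Finset α → α ⊕ Bool → Prop := fun F b =>
    (#F = j + 1 ∧ v ∉ F) ∧ (b = .inl v ∨ p ∈ F ∧ (b = .inl p ∨ b = .inl q))
  let U : Submodule K (Finset α → α ⊕ Bool → K) :=
    .pi .univ fun F => .pi {b | ¬ T F b} fun _ => ⊥
  have e : ∀ c, c ∈ U ↔ ∀ F b, ¬ T F b → c F b = 0 := by simp [U, Submodule.mem_pi]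
  have h4 : (Kv K _ v (j + 1)).map (kz (yy K v p q)) = U.map (kz (yy K v p q)) := by
    refine le_antisymm ?_ (Submodule.map_mono fun c hc => mem_Kv.2 fun F hF =>
      funext fun b => (e c).1 hc F b fun h => by grind)
    rintro _ ⟨c, hc, rfl⟩
    have h4 := mem_Kv.1 hc
    refine ⟨fun F b => if T F b then c F b + (if b = .inl q ∧ q ∉ F then sg K p (F.erase p) *
      sg K q (F.erase p) * c (insert q (F.erase p)) (.inl p) else 0) else 0,
      (e _).2 fun F b h => if_neg h, funext₂ fun G b => ?_⟩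
    by_cases h5 : #G = j ∧ v ∉ G
    · rcases b with l | _ | _
      · rw [e1, e1]
        refine ite_congr rfl (fun h => ?_) fun _ => rfl
        simp [T, h5, h, h.2.symm, h2.symm]
      · rw [e2, e2]
        refine ite_congr rfl (fun h => ?_) fun _ => rfl
        simp [T, h5, h, h1.symm, h3]
      · rw [e3, e3]
        by_cases h : p ∈ G <;> by_cases h' : q ∈ G <;>
          simp [T, h5, h, h', h1, h1.symm, h2.symm, h3, h3.symm, mul_add, ← mul_assoc, sg_sq]
    · have : ∀ c : Finset α → α ⊕ Bool → K, (∀ F, #F ≠ j + 1 ∨ v ∈ F → c F = 0) →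
          kz (yy K v p q) c G = 0 := fun c h => by
        rw [kz_apply]
        exact sum_eq_zero fun l hl => by
          rw [h _ (by rw [card_insert_of_notMem (mem_compl.1 hl), mem_insert]; grind), map_zero,
            smul_zero]
      rw [this c h4, this]
      exact fun F hF => funext fun b => if_neg fun h => by grind
  have h5 : Function.Injective ((kz (yy K v p q)).domRestrict U) := by
    refine (injective_iff_map_eq_zero _).2 fun ⟨c, hc⟩ h => Subtype.ext (funext₂ fun F b => ?_)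
    replace h : kz (yy K v p q) c = 0 := h
    have h6 : ∀ F, c F (.inl p) = 0 := fun F => by
      by_cases h6 : p ∈ F
      · simpa [h, h6, sg_ne] using e2 c (F.erase p)
      · exact (e c).1 hc F _ (by simp [T, h6, h1])
    refine by_contra fun h7 => h7 ?_
    obtain ⟨⟨h8, h9⟩, rfl | ⟨h10, rfl | rfl⟩⟩ := not_not.1 fun h' => h7 ((e c).1 hc F b h')
    · obtain ⟨l, hl⟩ := card_pos.1 (show 0 < #F by omega)
      simpa [h, hl, sg_ne, ne_of_mem_of_not_mem hl h9] using e1 c (F.erase l) l
    · exact h6 F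
    · simpa [h, h10, sg_ne, h6] using e3 c (F.erase p)
  rw [h4, ← LinearMap.range_domRestrict, LinearMap.finrank_range_of_inj h5, rank_sp T U e,
    show Fintype.card α - 2 = #{v, p}ᶜ by rw [card_compl, card_pair h1.symm],
    show Fintype.card α - 1 = #{v}ᶜ by rw [card_compl, card_singleton], ← cnt, ← cnt, mul_sum,
    mul_sum, ← sum_add_distrib]
  refine sum_congr rfl fun F _ => ?_
  simp only [subset_compl_iff_disjoint_left, disjoint_insert_left, disjoint_singleton_left, T]
  by_cases h6 : #F = j + 1 ∧ v ∉ F <;> by_cases h7 : p ∈ F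
  · simp [h6, h7, filter_or, filter_eq', h1, h2.symm, h3]
  · simp [h6, h7, filter_eq']
  · simp [h6, h7]
  · simp [h6, h7]

lemma hz_yy {M : Type} [AddCommGroup M] [Module K M] {x : α → M →ₗ[K] M}
    (π : M →ₗ[K] α ⊕ Bool → K) (h1 : p ≠ v) (h2 : q ≠ v) (h3 : p ≠ q)
    (h4 : ∀ i l m, x i (x l m) = x l (x i m)) (h5 : ∀ m, x v m = 0 → m = 0)
    (h6 : ∀ m, π m = 0 ↔ ∃ u, x v u = m) (h7 : Function.Surjective π)
    (h8 : ∀ i m, π (x i m) = yy K v p q i (π m)) :
    hz x (j + 1) = (j + 1) * (Fintype.card α).choose (j + 2) := by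
  have h9 := hz_red (j := j) π h4 h5 h6 h7 h8
  have h10 := rank_yy (K := K) (j := j) h1 h2 h3
  have h11 : finrank K ((Kv K _ v (j + 2)).map _) + _ = _ := rank_yy (K := K) h1 h2 h3
  rw [rank_sp (fun F _ => #F = j + 1 ∧ F ⊆ {v}ᶜ) (Kv K _ v (j + 1)) fun c => by
    simp [mem_Kv, funext_iff, imp_iff_not_or, forall_or_left], sum_congr rfl (g := fun F =>
      (Fintype.card α + 2) * if #F = j + 1 ∧ F ⊆ {v}ᶜ then 1 else 0) fun F _ => by
        split_ifs with h <;> simp [-subset_compl_singleton, h], ← mul_sum, cnt, card_compl, card_singleton] at h9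
  obtain ⟨c, hc⟩ : ∃ c, Fintype.card α = c + 2 :=
    ⟨_, (Nat.sub_add_cancel (Fintype.one_lt_card_iff.2 ⟨p, v, h1⟩)).symm⟩
  rw [hc] at h9 h10 h11 ⊢
  have h12 := Nat.choose_succ_right_eq (c + 1) (j + 1)
  simp only [Nat.add_sub_cancel, show c + 2 - 1 = c + 1 from rfl] at *
  rw [Nat.choose_succ_succ' (c + 1)]
  have h13 := Nat.choose_succ_succ' c (j + 1)
  rcases le_or_gt (j + 1) (c + 1) with h | h
  · zify [h] at *
    linear_combination h9 - h10 - h11 - 2 * h13 - h12
  · rw [Nat.choose_eq_zero_of_lt h, Nat.choose_eq_zero_of_lt (h.trans (lt_add_one _))] at *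
    omega

end Pool.Agent.HShift
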